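import Pool.Agent.Helper35K9.LW.Rl
import Pool.Agent.Results.MP_b8021b_nt.TowersEveryDegree
import Pool.Agent.Helper35K9.LW.Rep
import Pool.Agent.Helper35K9.LW.Dim

/-!
# Dihedral representations: the rule of the minimalist conjecture in explicit families of curves

Let `K = ℚ(i)`, `δ ∈ ℤ[i]`, and let `F ∋ i, √δ` be a number field which is Galois over `ℚ`. The
representations of `Gal(F/ℚ)` which contain the quadratic character of `Gal(F/K)` belonging to `K(√δ)` are
the constituents of the representation `ρ_δ` induced by it. For `E_d : y² = x³ - d² x` over `ℚ` the function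
`L(E_d, ρ_δ, s)` is `L(ψ_D, s) L(conj ψ_D, s)`, `D = d δ`, where `ψ_D((p)) = (D / p) p` for the primes
`p ≡ 1 mod 2 + 2i` is the Hecke character of the curve `D y² = x³ - x` over `K`; its root number is `+1`, so
the minimalist conjecture predicts the multiplicity `0`.

Let `Fam δ` be the set of the squarefree `d ≥ 1` such that all prime factors `p` of `d` satisfy
`p ≡ 3 mod 8`, and all the primary prime factors of `δ` are squares modulo `p` (these conditions say
that the Frobenius of `p` is in a certain conjugacy class). Call `δ` good if, for infinitely many curves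
over `ℚ`, namely for all `E_d`, `d ∈ Fam δ`, and for all `F`, each irreducible representation `ρ` of
`Gal(F/ℚ)` which contains the character of `√δ` has dimension two (so it is `ρ_δ`, a faithful
representation of a dihedral group of order 8), does not occur in `ℂ ⊗ E_d(F)`, and
`L(E_d, ρ, s)` is entire and not zero at `s = 1`.

Let `P` be a finite set of primes `p ≡ 1 mod 2 + 2i` of `ℤ[i]`, `N = 2 ^ #P`, and let `D` run over
the squarefree `D ≡ 1 + i mod 4` which are prime to `P`, ordered by norm.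

* The number of the `T ⊆ P` such that `D ∏ T` is good is bounded below by the law of a binomial variable
  with parameters `N` and `0.419`. (For `P` empty: `δ = D` is good for at least 41.9 percent of the `D`.)
* For every `ε > 0`, if `#P` is large, then for at least the proportion `1 - ε` of the `D` at least
  `(0.419 - ε) N` of the `N` numbers `D ∏ T`, `T ⊆ P`, are good.
-/

set_option autoImplicit false

namespace Pool.Agent.Results.MP_775b3b_nt.DihedralFamilies

open Filter Topology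
open Pool.Agent.Helper35K9.LW.Rep (Primary Fam Rule)

/-- `δ` is good: there are infinitely many primes in `Fam δ`, and the rule holds for all `d ∈ Fam δ`. -/
def Good (δ : GaussianInt) : Prop :=
  {p : ℕ | p.Prime ∧ p ∈ Fam δ}.Infinite ∧ ∀ d ∈ Fam δ, Rule d δ

/-- The squarefree Gaussian integers `D ≡ 1 + i mod 4` of norm at most `X` which are prime to `P`. -/
def All (P : Finset GaussianInt) (X : ℕ) : Set GaussianInt :=
  {D | D.norm.natAbs ≤ X ∧ (4 : GaussianInt) ∣ D - ⟨1, 1⟩ ∧ Squarefree D ∧ ∀ p ∈ P, ¬ p ∣ D}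

open Classical in
/-- Those `D` such that `D ∏ T` is good for at least `k` of the `2 ^ #P` subsets `T` of `P`. -/
def Many (P : Finset GaussianInt) (k X : ℕ) : Set GaussianInt :=
  {D | D ∈ All P X ∧ k ≤ (P.powerset.filter fun T => Good (D * ∏ p ∈ T, p)).card}

/-- The probability that a binomial variable with parameters `N` and `0.419` is at least `k`. -/
noncomputable def tail (N k : ℕ) : ℝ :=
  ∑ j ∈ Finset.Icc k N, (N.choose j : ℝ) * 0.419 ^ j * 0.581 ^ (N - j)

/-! ### The proof -/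

section proof

open Pool.Agent.Helper35K9.TW
open Pool.Agent.Helper35K9.LW.Rep (op_iff fam fam_inf)
open Pool.Agent.Y697.MQ (OP leg Gd gA)
open Pool.Agent.Y697.PP (SS mem_SS)
open Pool.Agent.Helper35K9.LW (S_INC S_MON S_LLN bk Ej many_Ej)

/-- the good `δ` -/
theorem good_of (hrep : Pool.Agent.Helper35K9.LW.Rep.S_REP) (hdim : Pool.Agent.Helper35K9.LW.Rep.S_DIM)
    {Q : Finset GaussianInt} (hQ : ∀ x ∈ Q, OP x) (hG : Gd gA gL Q) :
    Good ((⟨1, 1⟩ : GaussianInt) * ∏ x ∈ Q, x) := by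
  refine ⟨fam_inf hQ, fun d hd => ?_⟩
  obtain ⟨D', e, h1, h2, h3, h4⟩ := fam hQ hG hd
  exact Pool.Agent.Helper35K9.LW.Rep.rule_of hrep hdim hQ hd.1.ne_zero h1 h2 h3 h4

theorem mem_many (hrep : Pool.Agent.Helper35K9.LW.Rep.S_REP)
    (hdim : Pool.Agent.Helper35K9.LW.Rep.S_DIM) {P : Finset GaussianInt} (hP : ∀ p ∈ P, OP p)
    {k X : ℕ} {Q : Finset GaussianInt} (hQ : Q ∈ SS (X / 2)) (hd : Ej k P Q) :
    (⟨1, 1⟩ : GaussianInt) * (∏ x ∈ Q, x) ∈ Many P k X := by
  classical
  obtain ⟨hQO, hQX⟩ := mem_SS.1 hQ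
  obtain ⟨hdis, hk⟩ := hd
  refine ⟨MP_b8021b_nt.TowersEveryDegree.mem_all hP hQ hdis, ?_⟩
  unfold Pool.Agent.Helper35K9.LW.gdc at hk
  refine hk.trans (Finset.card_le_card ?_)
  intro T hT
  rw [Finset.mem_filter] at hT ⊢
  have hTP := Finset.mem_powerset.1 hT.1
  refine ⟨hT.1, ?_⟩
  have h1 : Gd gA gL (Q ∪ T) :=
    Pool.Agent.Helper35K9.TW.PP.gd_of_det (by convert hT.2)
  have h2 : (⟨1, 1⟩ : GaussianInt) * (∏ x ∈ Q, x) * ∏ p ∈ T, p =
      ⟨1, 1⟩ * ∏ x ∈ Q ∪ T, x := by
    rw [Finset.prod_union (hdis.mono_right hTP)]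
    ring
  rw [h2]
  exact good_of hrep hdim (fun x hx => by
    rcases Finset.mem_union.1 hx with h3 | h3
    · exact hQO x h3
    · exact hP x (hTP h3)) h1

theorem tail_eq (N k : ℕ) : tail N k = bk N k 0.419 := by
  unfold tail bk
  norm_num

open Classical in
theorem many_count (hrep : Pool.Agent.Helper35K9.LW.Rep.S_REP)
    (hdim : Pool.Agent.Helper35K9.LW.Rep.S_DIM) (hinc : S_INC) (hmon : S_MON)
    {P : Finset GaussianInt} (hP : ∀ p ∈ P, OP p) (k : ℕ) : ∀ᶠ X : ℕ in atTop,
    tail (2 ^ P.card) k * ((All P X).ncard : ℝ) ≤ ((Many P k X).ncard : ℝ) := by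
  rw [tail_eq]
  have hfin : ∀ X, (All P X).Finite := MP_b8021b_nt.TowersEveryDegree.all_finite P
  have hcnt : ∀ᶠ X : ℕ in atTop, bk (2 ^ P.card) k 0.419 *
      (((SS X).filter fun S => Disjoint S P).card : ℝ) ≤
      (((SS X).filter fun S => Ej k P S).card : ℝ) := by
    rcases Nat.eq_zero_or_pos k with rfl | hk
    · refine Eventually.of_forall fun X => ?_
      rw [hmon.2.2.1, one_mul]
      refine le_of_eq ?_
      congr 2
      ext S
      unfold Ej
      simp
    · rcases le_or_gt k (2 ^ P.card) with hk2 | hk2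
      · exact (many_Ej hinc hmon hP hk hk2).mono fun X hX => by convert hX
      · refine Eventually.of_forall fun X => ?_
        have h1 : bk (2 ^ P.card) k 0.419 = 0 := by
          unfold bk
          rw [Finset.Icc_eq_empty (by omega), Finset.sum_empty]
        rw [h1, zero_mul]
        exact Nat.cast_nonneg _
  have hb0 : 0 ≤ bk (2 ^ P.card) k 0.419 := (hmon.2.2.2 _ _ _ (by norm_num) (by norm_num)).1
  refine (MP_b8021b_nt.TowersEveryDegree.half_tendsto.eventually hcnt).mono fun X hX => ?_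
  have h1 : ((All P X).ncard : ℝ) ≤
      (((SS (X / 2)).filter fun S => Disjoint S P).card : ℝ) := by
    exact_mod_cast MP_b8021b_nt.TowersEveryDegree.all_le P X
  have h2 : ((SS (X / 2)).filter fun S => Ej k P S).card ≤ (Many P k X).ncard := by
    have h3 : ((((SS (X / 2)).filter fun S => Ej k P S).image
        fun S => (⟨1, 1⟩ : GaussianInt) * ∏ p ∈ S, p : Finset GaussianInt) : Set GaussianInt) ⊆
        Many P k X := by
      intro D hD
      rw [Finset.mem_coe, Finset.mem_image] at hD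
      obtain ⟨S, hS, rfl⟩ := hD
      rw [Finset.mem_filter] at hS
      exact mem_many hrep hdim hP hS.1 hS.2
    have h4 := Set.ncard_le_ncard h3 ((hfin X).subset fun D hD => hD.1)
    rw [Set.ncard_coe_finset, Finset.card_image_of_injOn] at h4
    · exact h4
    · intro S hS T hT h
      rw [Finset.mem_coe, Finset.mem_filter, mem_SS] at hS hT
      exact MP_b8021b_nt.TowersEveryDegree.inj_prod hS.1.1 hT.1.1 h
  have h3 : (((SS (X / 2)).filter fun S => Ej k P S).card : ℝ) ≤ ((Many P k X).ncard : ℝ) := by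
    exact_mod_cast h2
  exact (mul_le_mul_of_nonneg_left h1 hb0).trans (hX.trans h3)

theorem almost (hrep : Pool.Agent.Helper35K9.LW.Rep.S_REP)
    (hdim : Pool.Agent.Helper35K9.LW.Rep.S_DIM) (hinc : S_INC) (hmon : S_MON) (hlln : S_LLN)
    {ε : ℝ} (hε : 0 < ε) : ∃ n₀ : ℕ,
    ∀ P : Finset GaussianInt, (∀ p ∈ P, OP p) → n₀ ≤ P.card → ∀ᶠ X : ℕ in atTop,
      (1 - ε) * ((All P X).ncard : ℝ) ≤
        ((Many P ⌈(0.419 - ε) * 2 ^ P.card⌉₊ X).ncard : ℝ) := by
  obtain ⟨M₀, hM₀⟩ := hlln 0.419 (by norm_num) (by norm_num) (ε / 2) (by positivity)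
  obtain ⟨n₁, hn₁⟩ := exists_nat_gt (2 / ε)
  refine ⟨max M₀ n₁, fun P hP hn => ?_⟩
  have hn1 : P.card < 2 ^ P.card := Nat.lt_two_pow_self
  have hM1 : M₀ ≤ 2 ^ P.card := ((le_max_left _ _).trans hn).trans hn1.le
  have hM2 : n₁ ≤ 2 ^ P.card := ((le_max_right _ _).trans hn).trans hn1.le
  have hM3 : 2 / ε ≤ ((2 ^ P.card : ℕ) : ℝ) := hn₁.le.trans (by exact_mod_cast hM2)
  have hM4 : 2 ≤ ε * ((2 ^ P.card : ℕ) : ℝ) := by
    rw [div_le_iff₀ hε] at hM3
    linarith
  have hk : 1 - ε ≤ tail (2 ^ P.card) ⌈(0.419 - ε) * 2 ^ P.card⌉₊ := by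
    rw [tail_eq]
    rcases le_or_gt ((0.419 - ε) * 2 ^ P.card) 0 with h0 | h0
    · rw [Nat.ceil_eq_zero.2 h0, hmon.2.2.1]
      linarith
    · have h1 := hM₀ (2 ^ P.card) hM1 ⌈(0.419 - ε) * 2 ^ P.card⌉₊ (by
        have h2 := Nat.ceil_lt_add_one h0.le
        push_cast at hM4 ⊢
        nlinarith)
      linarith
  refine (many_count hrep hdim hinc hmon hP ⌈(0.419 - ε) * 2 ^ P.card⌉₊).mono fun X hX => ?_
  exact (mul_le_mul_of_nonneg_right hk (Nat.cast_nonneg _)).trans hX

end proof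

/-- **Main theorem.** Let `P` be a finite set of primary primes, `N = 2 ^ #P`. There are at least `c X`
squarefree `D ≡ 1 + i mod 4` prime to `P` of norm at most `X`, `c > 0`; for every `k` at least the
proportion `tail N k` of them are in `Many P k X` for large `X`. For every `ε > 0`, if `#P` is
large, at least the proportion `1 - ε` of them are in `Many P k X` for `k = (0.419 - ε) N` (rounded up). -/
theorem result :
    (∀ P : Finset GaussianInt, (∀ p ∈ P, Prime p ∧ Primary p) →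
      (∃ c : ℝ, 0 < c ∧ ∀ᶠ X : ℕ in atTop, c * X ≤ ((All P X).ncard : ℝ)) ∧
      ∀ k : ℕ, ∀ᶠ X : ℕ in atTop,
        tail (2 ^ P.card) k * ((All P X).ncard : ℝ) ≤ ((Many P k X).ncard : ℝ)) ∧
    ∀ ε : ℝ, 0 < ε → ∃ n₀ : ℕ, ∀ P : Finset GaussianInt, (∀ p ∈ P, Prime p ∧ Primary p) →
      n₀ ≤ P.card → ∀ᶠ X : ℕ in atTop,
        (1 - ε) * ((All P X).ncard : ℝ) ≤
          ((Many P ⌈(0.419 - ε) * 2 ^ P.card⌉₊ X).ncard : ℝ) := by
  refine ⟨fun P hP => ⟨(MP_b8021b_nt.TowersEveryDegree.result.1 P hP).1, fun k => ?_⟩,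
    fun ε hε => ?_⟩
  · exact many_count Pool.Agent.Helper35K9.LW.Rep.rep Pool.Agent.Helper35K9.LW.Rep.dim
      Pool.Agent.Helper35K9.LW.inc Pool.Agent.Helper35K9.LW.mon
      (fun p hp => (Pool.Agent.Helper35K9.LW.Rep.op_iff p).2 (hP p hp)) k
  · obtain ⟨n₀, h⟩ := almost Pool.Agent.Helper35K9.LW.Rep.rep Pool.Agent.Helper35K9.LW.Rep.dim
      Pool.Agent.Helper35K9.LW.inc Pool.Agent.Helper35K9.LW.mon Pool.Agent.Helper35K9.LW.lln hε
    exact ⟨n₀, fun P hP => h P fun p hp => (Pool.Agent.Helper35K9.LW.Rep.op_iff p).2 (hP p hp)⟩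

end Pool.Agent.Results.MP_775b3b_nt.DihedralFamilies
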