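import Pool.Agent.Helper35K9.NQ.Dens
import Pool.Agent.Helper35K9.NQ.Rep4
import Pool.Agent.Helper35K9.NQ.Dim4
import Pool.Agent.Helper35K9.NQ.R1m
import Pool.Agent.Helper35K9.NQ.Lm
import Pool.Agent.Helper35K9.OF.Alt
import Pool.Agent.Helper35K9.OF.Den
import Pool.Agent.Helper35K9.OF.Dir
import Pool.Agent.Helper35K9.OF.Pim

/-!
# Non-self-dual representations of dimension two

Let `K = ℚ(i)` and let `D ≡ 1 + 2 i mod 4` be a Gaussian integer whose norm `N(D)` is squarefree. For a divisor
`g ≡ 1 mod 2 + 2 i` of `D` let `χ` be the quartic character of `K((D g²)^(1/4)) / K` (these are the `2^m` quartic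
characters belonging to the products of the prime factors of `D` with exponents `1` and `3`, `m` the number of the
prime factors). It is not conjugate to itself or to its inverse, and the representation `ρ_g` of
`Gal(Kbar / ℚ)` induced by `χ` is irreducible of dimension two and **not self-dual** (it is a faithful
representation of the wreath product of the cyclic groups of order four and two, the Galois group of the Galois
closure of `K((D g²)^(1/4))`). The minimalist conjecture predicts that `ρ_g` does not occur in `ℂ ⊗ E(F)` for
almost all `E`.

For `n ≡ 1 mod 4` let `E_n : y² = x³ - n x`. Over `K` it has complex multiplication and the Hecke character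
`ψ_n((p)) = conj (n / p)₄ p`, `p ≡ 1 mod 2 + 2 i`, so
`L(E_n, ρ_g, s) = L(ψ_n χ, s) L(conj ψ_n χ, s)`, the `L`-functions of the quartic twists of `y² = x³ - x` by
`n D³ g²` and (the complex conjugate of the one) by `n D g²`. By quartic reciprocity
`(D g² / p)₄ = (p / D)₄ (p / g)₄²` and `(n / p)₄ = (p / n)₄`, which are the products `chi D p * chi g p ^ 2` and
`chi n p` below. (The Euler factors at `1 + i`, which are not in the products below, have neither a zero nor a pole
at the central point.)

Theorem: let `D` be **fixed**, let `N(D)` have `m` prime factors and let `m` be odd or `(y / x) = -1` for some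
prime `x` and `D = x y`. Let `n = ± d ≡ 1 mod 4`, where `d` runs through the squarefree numbers whose prime
factors have a Frobenius of order eight in the Galois group of the Galois closure of `K(D^(1/4))`. For a set
of `d` of lower analytic density at least `∏_(i < (m - 1) / 2) (1 - 2^(-2i-1)) > 0.4194` in this family, **none of
the `2^m` representations** `ρ_g` occurs in `ℂ ⊗ E_n(F)`, and `L(E_n, ρ_g, 1) ≠ 0` for all of them.

The proof: the multiplicity is zero if the curves `y² = x³ - n D g² x` and `y² = x³ - n D³ g² x` have finitely
many points over `K`; for these quartic twists (with exponents `1` and `3` at the primes) the descent by `1 + i`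
and the nonvanishing of the central values hold if a Laplacian matrix of quadratic residue symbols has corank
one (the central values by the congruences modulo powers of `1 + i` of `MP_b8021b_nt.QuarticTwistsEveryDegree`);
the matrix does not depend on the exponents.
For `d` as above the Schur complement of the primes of `d` changes only the entries off the diagonal of the
Laplacian matrix of `D`, by an additive function of `d`, which is equidistributed on the matrices with row
sums zero.
-/

set_option autoImplicit false

namespace Pool.Agent.Results.MP_775b3b_nt.NonSelfDualTwists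

open Filter Topology
open Pool.Agent.Helper35K9.LW.Rep (Primary symbol)
open Pool.Agent.Helper35K9.NQ

open Classical in
/-- **Main theorem.** Let `D ≡ 1 + 2 i mod 4`, let its norm be squarefree with `m` prime factors, and let
`m` be odd or `(y / x) = -1` for some primary prime `x` and `D = x y`. For every `c` smaller than
`∏_(i < (m - 1) / 2) (1 - 2 ^ (-(2 i + 1)))`, which is at least `0.4194`, the Dirichlet series of the `d ∈ Ord8 D` for
which the rule holds for **all** primary divisors `g` of `D` is at least `c` times the one of `Ord8 D` if the real
argument is close to `1`. The sum of `1 / p` over the primes of `Ord8 D` diverges. -/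
theorem result (D : GaussianInt) (h1 : (4 : GaussianInt) ∣ D - ⟨1, 2⟩)
    (h2 : Squarefree D.norm.natAbs)
    (h3 : Odd (om D) ∨ ∃ x y : GaussianInt, Prime x ∧ Primary x ∧ D = x * y ∧ symbol x y = -1) :
    (∀ c : ℝ, c < proportion ((om D - 1) / 2) → ∀ᶠ x : ℝ in 𝓝[>] 1,
      c * series (Ord8 D) x ≤
        series {d | d ∈ Ord8 D ∧ ∀ g : GaussianInt, Primary g → g ∣ D → Rule4 d D g} x) ∧
    0.4194 ≤ proportion ((om D - 1) / 2) ∧
    ¬ Summable (fun p : ℕ => if p.Prime ∧ p ∈ Ord8 D then (1 / p : ℝ) else 0) :=
  ⟨fun _ hc => density rep4 dim4 r1m lm Pool.Agent.Helper35K9.OF.sch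
    Pool.Agent.Helper35K9.OF.alt_leaf Pool.Agent.Helper35K9.OF.den Pool.Agent.Helper35K9.OF.dir
    h1 h2 h3 hc, Pool.Agent.Helper35K9.OF.pim _, many_primes Pool.Agent.Helper35K9.OF.dir h1 h2⟩

end Pool.Agent.Results.MP_775b3b_nt.NonSelfDualTwists
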