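import Pool.Agent.Helper35K9.LW.Rl
import Pool.Agent.Helper35K9.OF.Cls
import Pool.Agent.Helper35K9.OF.Alt
import Pool.Agent.Helper35K9.OF.Den
import Pool.Agent.Helper35K9.OF.Dir
import Pool.Agent.Helper35K9.OF.Pim
import Pool.Agent.Helper35K9.LW.Rep
import Pool.Agent.Helper35K9.LW.Dim
import Pool.Agent.Results.MP_b8021b_nt.TowersEveryDegree

/-!
# Dihedral representations of order eight and twists by primes with Frobenius of order four

Let `K = ℚ(i)` and let `δ ≡ 1 + i mod 4` be a Gaussian integer whose norm `N(δ)` is squarefree. The Galois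
closure of `K(√δ)` over `ℚ` is dihedral of order 8; let `ρ` be its faithful representation of dimension two,
induced by the quadratic character of `√δ`. For `E_d : y² = x³ - d² x` over `ℚ` the root number of `E_d` twisted by
`ρ` is `+1` (`L(E_d, ρ, s) = L(ψ, s) L(conj ψ, s)`, `ψ` the Hecke character of `d δ y² = x³ - x` over `K`), so the
minimalist conjecture predicts that the multiplicity of `ρ` in `ℂ ⊗ E_d(F)` is zero.

Let `Ord4 δ` be the set of the squarefree `d ≥ 1` all of whose prime factors `p` satisfy `p ≡ 3 mod 4` and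
`(δ / p) = -1` in `ℤ[i]`; this says that the Frobenius of `p` has order four in the dihedral group. Let `m` be
the number of odd prime factors of `N(δ)`, and suppose that `m` is even, or that `(y / x) = -1` for some primary
prime `x` and `δ = x y`. Then, in the sense of the analytic density, at least the proportion
`∏_(i < m / 2) (1 - 2 ^ (-(2 i + 1))) > 0.4194` of the `d ∈ Ord4 δ` have the following property (for `m ≤ 1`: all of
them but for a set of density zero): for every number field `F ∋ i, √δ` which is Galois over `ℚ` and every irreducible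
representation `ρ` of `Gal(F/ℚ)` which contains the character of `√δ`, `ρ` has dimension two, it does not
occur in `ℂ ⊗ E_d(F)`, and `L(E_d, ρ, s)` is entire and not zero at `s = 1`.

Here `ρ` and `F` are fixed and the curve `E_d` varies, as in the minimalist conjecture.

Proof. The criterion of the start files (the 2-adic valuation of the central values of the Hecke
`L`-functions) applies to `d δ` if a certain symmetric matrix over the field with two elements,
indexed by the primes of `d δ`, is invertible. For `d ∈ Ord4 δ` the block of the primes of `d` is the identity;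
the Schur complement is the matrix of `δ` plus a matrix with zero diagonal, which is an additive function
of `d`. It is equidistributed: by Dirichlet's theorem there are enough primes
`p ≡ 3 mod 8` for which exactly two of the prime factors of `δ` are not squares. The symmetric invertible matrices
with a given diagonal are counted.
-/

set_option autoImplicit false

namespace Pool.Agent.Results.MP_775b3b_nt.OrderFourTwists

open Filter Topology
open Pool.Agent.Helper35K9.LW.Rep (Primary symbol Rule)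

/-- The squarefree `d ≥ 1` all of whose prime factors `p` satisfy `p ≡ 3 mod 4` and `(δ / p) = -1`: the
Frobenius of `p` has order four in the Galois group of the Galois closure of `ℚ(i, √δ)`. -/
def Ord4 (δ : GaussianInt) : Set ℕ := {d | Squarefree d ∧ ∀ p : ℕ, p.Prime → p ∣ d →
  p % 4 = 3 ∧ symbol (p : GaussianInt) δ = -1}

open Classical in
/-- the Dirichlet series `∑_(n ∈ S) n ^ (-x)` -/
noncomputable def series (S : Set ℕ) (x : ℝ) : ℝ := ∑' n : ℕ, if n ∈ S then (n : ℝ) ^ (-x) else 0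

/-- the number of the odd prime factors of the norm of `δ` -/
def om (δ : GaussianInt) : ℕ := (δ.norm.natAbs.primeFactors.erase 2).card

/-- `∏_(i < m) (1 - 2 ^ (-(2 i + 1)))` -/
noncomputable def proportion (m : ℕ) : ℝ := ∏ i ∈ Finset.range m, (1 - 1 / 2 ^ (2 * i + 1))

section proof

open Finset
open Pool.Agent.Helper35K9.TW
open Pool.Agent.Helper35K9.OF
open Pool.Agent.Helper35K9.LW.Rep (op_iff symbol_eq rule_of cast_prod)
open Pool.Agent.Y697.MQ (OP leg Gd gA exists_ker2 Pr_prod)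
open Pool.Agent.Y697.PP (Mt)

theorem norm_pi (Q : Finset GaussianInt) :
    (∏ x ∈ Q, x).norm.natAbs = ∏ x ∈ Q, x.norm.natAbs := by
  classical
  induction Q using Finset.induction_on with
  | empty => rw [prod_empty, prod_empty]; rfl
  | insert a s ha ih => rw [prod_insert ha, prod_insert ha, Zsqrtd.norm_mul, Int.natAbs_mul, ih]

/-- the structure of `δ` -/
theorem decomp {δ : GaussianInt} (h1 : (4 : GaussianInt) ∣ δ - ⟨1, 1⟩)
    (h2 : Squarefree δ.norm.natAbs) : ∃ Q : Finset GaussianInt, (∀ x ∈ Q, OP x) ∧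
      δ = ⟨1, 1⟩ * ∏ x ∈ Q, x ∧ (∀ x ∈ Q, (x.norm.natAbs).Prime) ∧
      Set.InjOn (fun x : GaussianInt => x.norm.natAbs) Q ∧ Q.card = om δ := by
  classical
  obtain ⟨g, hg, rfl⟩ := MP_b8021b_nt.TowersEveryDegree.of_mod h1
  obtain ⟨Q, hQ, e, he, hge⟩ := exists_ker2 g ((Pool.Agent.Y697.MQ.Pr_iff g).2 hg)
  have hnorm : ((⟨1, 1⟩ : GaussianInt) * g).norm.natAbs =
      2 * (∏ x ∈ Q, x.norm.natAbs) * (e.norm.natAbs * e.norm.natAbs) := by
    rw [Zsqrtd.norm_mul, Int.natAbs_mul, hge, Zsqrtd.norm_mul, Int.natAbs_mul, norm_pi, pow_two,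
      Zsqrtd.norm_mul, Int.natAbs_mul]
    have e1 : (⟨1, 1⟩ : GaussianInt).norm.natAbs = 2 := rfl
    rw [e1]
    ring
  have he1 : e = 1 := by
    apply he.unit
    have h3 : IsUnit e.norm.natAbs := h2 _ ⟨2 * (∏ x ∈ Q, x.norm.natAbs), by rw [hnorm]; ring⟩
    exact Zsqrtd.norm_eq_one_iff.1 (Nat.isUnit_iff.1 h3)
  rw [he1, one_pow, mul_one] at hge
  have hnorm' : ((⟨1, 1⟩ : GaussianInt) * g).norm.natAbs = 2 * ∏ x ∈ Q, x.norm.natAbs := by
    rw [hnorm, he1]
    have e1 : (1 : GaussianInt).norm.natAbs = 1 := rfl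
    rw [e1, mul_one, mul_one]
  rw [hnorm'] at h2
  have hO : ∀ x ∈ Q, OP x := fun x hx => (hQ x hx).1
  have hpr : ∀ x ∈ Q, (x.norm.natAbs).Prime := by
    intro x hx
    obtain ⟨q, hq, -, h3 | h3⟩ := Pool.Agent.Y697.MQ.types (hO x hx)
    · rw [h3.2]
      exact hq
    · exfalso
      have h4 : q * q ∣ 2 * ∏ x ∈ Q, x.norm.natAbs :=
        (by rw [← pow_two, ← h3.2.2]; exact dvd_prod_of_mem _ hx : q * q ∣ _).mul_left _
      exact hq.one_lt.ne' (Nat.isUnit_iff.1 (h2 q h4))
  have hinj : Set.InjOn (fun x : GaussianInt => x.norm.natAbs) Q := by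
    intro x hx y hy hxy
    by_contra hne
    simp only at hxy
    have h4 : x.norm.natAbs * x.norm.natAbs ∣ 2 * ∏ x ∈ Q, x.norm.natAbs := by
      refine Dvd.dvd.mul_left ?_ _
      rw [← mul_prod_erase Q _ hx, mul_comm x.norm.natAbs (∏ x ∈ Q.erase x, _)]
      refine mul_dvd_mul ?_ (dvd_refl _)
      rw [hxy]
      exact dvd_prod_of_mem (fun x : GaussianInt => x.norm.natAbs)
        (mem_erase.2 ⟨fun h => hne h.symm, hy⟩)
    exact (hpr x hx).one_lt.ne' (Nat.isUnit_iff.1 (h2 _ h4))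
  refine ⟨Q, hO, by rw [hge], hpr, hinj, ?_⟩
  have h3 : (2 * ∏ x ∈ Q, x.norm.natAbs).primeFactors.erase 2 = Q.image fun x => x.norm.natAbs := by
    ext p
    rw [mem_erase, Nat.mem_primeFactors, mem_image]
    constructor
    · rintro ⟨hp2, hp, hpd, -⟩
      rcases (Nat.Prime.dvd_mul hp).1 hpd with h | h
      · exact absurd ((Nat.prime_dvd_prime_iff_eq hp Nat.prime_two).1 h) hp2
      · obtain ⟨x, hx, hpx⟩ := (Prime.dvd_finsetProd_iff hp.prime _).1 h
        exact ⟨x, hx, ((Nat.prime_dvd_prime_iff_eq hp (hpr x hx)).1 hpx).symm⟩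
    · rintro ⟨x, hx, rfl⟩
      refine ⟨?_, hpr x hx, (dvd_prod_of_mem _ hx).mul_left _, h2.ne_zero⟩
      intro h
      have h4 := (Pr_iff2 x).1 (hO x hx).pm
      have h5 : x.norm = x.re * x.re + x.im * x.im := by rw [Zsqrtd.norm_def]; ring
      have h6 : Odd x.norm.natAbs := by
        rw [Int.natAbs_odd, h5]
        have h7 : Odd x.re := by
          rw [Int.odd_iff]
          omega
        have h8 : Even x.im := Int.even_iff.2 h4.1
        exact (h7.mul h7).add_even (h8.mul_right _)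
      rw [h] at h6
      exact absurd h6 (by decide)
  unfold om
  rw [hnorm', h3, card_image_of_injOn hinj]

/-- the diagonal -/
theorem diag {Q : Finset GaussianInt} (hQ : ∀ x ∈ Q, OP x) {s : ℕ} (e : Fin s ≃ Q)
    {x y : GaussianInt} (hx : Prime x) (hx' : Primary x) (hxy : ⟨1, 1⟩ * ∏ x ∈ Q, x = x * y)
    (hs : symbol x y = -1) : ∃ i, Mx e i i = 1 := by
  classical
  have hO : OP x := (op_iff x).2 ⟨hx, hx'⟩
  have hxQ : x ∈ Q := by
    have h1 : x ∣ ⟨1, 1⟩ * ∏ x ∈ Q, x := ⟨y, hxy⟩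
    rcases hx.dvd_or_dvd h1 with h | h
    · exact absurd h hO.odd
    · obtain ⟨z, hz, hxz⟩ := (Prime.dvd_finsetProd_iff hx _).1 h
      rw [hO.dvd (hQ z hz) hxz]
      exact hz
  have hy : y = ⟨1, 1⟩ * ∏ z ∈ Q.erase x, z := by
    apply mul_left_cancel₀ hx.ne_zero
    rw [← hxy, ← mul_prod_erase Q (fun z => z) hxQ]
    ring
  obtain ⟨h1, h2⟩ := row_sum (Q := Q.erase x) (fun z hz => hQ z (mem_of_mem_erase hz)) hO
    (notMem_erase x Q)
  rw [← hy, ← symbol_eq, hs] at h1
  refine ⟨e.symm ⟨x, hxQ⟩, ?_⟩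
  unfold Mx Lp
  rw [if_pos rfl]
  simp only [Equiv.apply_symm_apply]
  have h3 : ∑ j ∈ univ.erase (e.symm ⟨x, hxQ⟩), gA x (e j) = ∑ z ∈ Q.erase x, gA x z := by
    refine sum_bij (fun j _ => (e j : GaussianInt)) ?_ ?_ ?_ ?_
    · intro j hj
      refine mem_erase.2 ⟨fun h => (mem_erase.1 hj).1 ?_, (e j).2⟩
      rw [← e.symm_apply_apply j]
      congr 1
      exact Subtype.ext h
    · intro j _ k _ h
      exact e.injective (Subtype.ext h)
    · intro z hz
      refine ⟨e.symm ⟨z, mem_of_mem_erase hz⟩, ?_, by rw [Equiv.apply_symm_apply]⟩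
      refine mem_erase.2 ⟨fun h => (mem_erase.1 hz).1 ?_, mem_univ _⟩
      have := e.symm.injective h
      exact congrArg Subtype.val this
    · intro j _
      rfl
  rw [h3, h1]
  rfl

open Classical in
/-- the rule for the good `d` -/
theorem rule_det (hrep : Pool.Agent.Helper35K9.LW.Rep.S_REP)
    (hdim : Pool.Agent.Helper35K9.LW.Rep.S_DIM) (hsch : S_SCH) {Q : Finset GaussianInt}
    (hQ : ∀ x ∈ Q, OP x) {s : ℕ} (e : Fin s ≃ Q) {d : ℕ}
    (hd : d ∈ Ord4 (⟨1, 1⟩ * ∏ x ∈ Q, x))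
    (hdet : (Mx e + alt (∑ p ∈ d.primeFactors, bb e p)).det ≠ 0) :
    Rule d (⟨1, 1⟩ * ∏ x ∈ Q, x) := by
  obtain ⟨hsq, hp⟩ := hd
  have hd' : ∀ p ∈ d.primeFactors, p % 4 = 3 ∧
      leg (-(p : GaussianInt)) (⟨1, 1⟩ * ∏ x ∈ Q, x) = -1 := by
    intro p hpd
    obtain ⟨h1, h2⟩ := hp p (Nat.prime_of_mem_primeFactors hpd) (Nat.dvd_of_mem_primeFactors hpd)
    refine ⟨h1, ?_⟩
    rw [Pool.Agent.Helper35K9.LW.Rep.leg_neg_left, ← symbol_eq]
    exact h2
  obtain ⟨h1, h2⟩ := det_union e hsch hQ hd'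
  set U := d.primeFactors.image fun p : ℕ => -(p : GaussianInt) with hU
  have hO : ∀ x ∈ Q ∪ U, OP x := by
    intro x hx
    rcases mem_union.1 hx with hx | hx
    · exact hQ x hx
    · obtain ⟨p, hpd, rfl⟩ := mem_image.1 hx
      exact inert_OP4 (Nat.prime_of_mem_primeFactors hpd) (hd' p hpd).1
  have hG : Gd gA gL (Q ∪ U) := by
    apply Pool.Agent.Helper35K9.TW.PP.gd_of_det
    rw [← h2] at hdet
    convert hdet
  have h3 := good_of_gd hO hG
  have h4 : ∏ x ∈ U, x = (⟨0, 1⟩ ^ d.primeFactors.card) ^ 2 * (d : GaussianInt) := by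
    rw [hU, prod_image (fun p _ q _ h => by exact_mod_cast neg_injective h),
      cast_prod d hsq, ← pow_mul, mul_comm _ 2, pow_mul]
    have e : (⟨0, 1⟩ : GaussianInt) ^ 2 = -1 := by decide
    rw [e, ← prod_const, ← prod_mul_distrib]
    exact prod_congr rfl fun p _ => by ring
  have hu : ((⟨0, 1⟩ : GaussianInt) ^ d.primeFactors.card) *
      (⟨0, -1⟩ : GaussianInt) ^ d.primeFactors.card = 1 := by
    rw [← mul_pow]
    have e : (⟨0, 1⟩ : GaussianInt) * ⟨0, -1⟩ = 1 := by decide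
    rw [e, one_pow]
  refine rule_of hrep hdim hQ hsq.ne_zero (e := (⟨0, -1⟩ : GaussianInt) ^ d.primeFactors.card) ?_
    (IsUnit.of_mul_eq_one _ (by rw [mul_comm]; exact hu)) h3.1 h3.2
  rw [prod_union h1, h4]
  unfold Pool.Agent.Y690.PP.Fn.la
  linear_combination (-(d : GaussianInt) * (⟨1, 1⟩ * ∏ x ∈ Q, x) *
    ((⟨0, 1⟩ : GaussianInt) ^ d.primeFactors.card *
      (⟨0, -1⟩ : GaussianInt) ^ d.primeFactors.card + 1)) * hu

open Classical in
theorem summ (S : Set ℕ) {x : ℝ} (hx : 1 < x) :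
    Summable fun n : ℕ => if n ∈ S then (n : ℝ) ^ (-x) else 0 := by
  refine Summable.of_nonneg_of_le (fun n => ?_) (fun n => ?_)
    (Real.summable_nat_rpow.2 (show -x < -1 by linarith))
  · split_ifs
    · exact Real.rpow_nonneg (Nat.cast_nonneg _) _
    · exact le_refl _
  · split_ifs
    · exact le_refl _
    · exact Real.rpow_nonneg (Nat.cast_nonneg _) _

theorem series_mono {S T : Set ℕ} (h : S ⊆ T) {x : ℝ} (hx : 1 < x) : series S x ≤ series T x := by
  classical
  refine (summ S hx).tsum_le_tsum (fun n => ?_) (summ T hx)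
  by_cases h1 : n ∈ S
  · rw [if_pos h1, if_pos (h h1)]
  · rw [if_neg h1]
    split_ifs
    · exact Real.rpow_nonneg (Nat.cast_nonneg _) _
    · exact le_refl _

open Classical in
/-- **The density.** -/
theorem density (hrep : Pool.Agent.Helper35K9.LW.Rep.S_REP)
    (hdim : Pool.Agent.Helper35K9.LW.Rep.S_DIM) (hsch : S_SCH) (halt : S_ALT) (hden : S_DEN)
    (hdir : S_DIR) {δ : GaussianInt} (h1 : (4 : GaussianInt) ∣ δ - ⟨1, 1⟩)
    (h2 : Squarefree δ.norm.natAbs)
    (h3 : Even (om δ) ∨ ∃ x y : GaussianInt, Prime x ∧ Primary x ∧ δ = x * y ∧ symbol x y = -1)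
    {c : ℝ} (hc : c < proportion (om δ / 2)) : ∀ᶠ x : ℝ in 𝓝[>] 1,
      c * series (Ord4 δ) x ≤ series {d | d ∈ Ord4 δ ∧ Rule d δ} x := by
  obtain ⟨Q, hQ, hδ, hN, hNi, hcard⟩ := decomp h1 h2
  rw [← hcard] at hc h3
  set s := Q.card with hs
  have e : Fin s ≃ Q := (Q.equivFin).symm
  have hM : (∃ i, Mx e i i = 1) ∨ Even s := by
    rcases h3 with h3 | ⟨x, y, hx, hx', hxy, hsy⟩
    · exact Or.inr h3
    · rw [hδ] at hxy
      exact Or.inl (diag hQ e hx hx' hxy hsy)
  have hsym : ∀ i j, Mx e i j = Mx e j i := fun i j =>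
    Lp_symm (fun x y => Pool.Agent.Helper35K9.TW.PP.gA_symm (hQ _ (e x).2) (hQ _ (e y).2)) i j
  have hcount := halt s (Mx e) hsym hM
  set G : Finset (Prs s → ZMod 2) := univ.filter fun a => (Mx e + alt a).det ≠ 0 with hG
  have hd := hden (P4 δ) (Prs s) (bb e) (fun φ hφ => by
    rw [hδ]
    exact nonsum hdir hQ hN hNi e φ hφ)
  have hsumT : Tendsto (fun x : ℝ => ∑ v ∈ G,
      Z {d | d ∈ Dd (P4 δ) ∧ ∑ p ∈ d.primeFactors, bb e p = v} x / Z (Dd (P4 δ)) x) (𝓝[>] 1)
      (𝓝 (proportion (s / 2))) := by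
    have h4 := tendsto_finsetSum G fun v _ => hd v
    have h5 : ∑ v ∈ G, (1 / 2 ^ Fintype.card (Prs s) : ℝ) = proportion (s / 2) := by
      rw [sum_const, nsmul_eq_mul, hcount]
      have h6 : (2 : ℝ) ^ Fintype.card (Prs s) ≠ 0 := by positivity
      unfold piM proportion
      field_simp
    rw [h5] at h4
    exact h4
  have hDd : Dd (P4 δ) = Ord4 δ := rfl
  have hev := hsumT.eventually (lt_mem_nhds hc)
  have hev1 : ∀ᶠ x : ℝ in 𝓝[>] 1, 1 < x := eventually_mem_nhdsWithin
  filter_upwards [hev, hev1] with x hx hx1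
  have hZ : ∀ S : Set ℕ, Z S x = series S x := fun S => rfl
  simp only [hDd, hZ] at hx
  have hpos : 0 < series (Ord4 δ) x := by
    have h4 : series {1} x ≤ series (Ord4 δ) x := series_mono (by
      intro n hn
      rw [Set.mem_singleton_iff.1 hn]
      exact ⟨squarefree_one, fun p hp hp1 => absurd (Nat.dvd_one.1 hp1) hp.ne_one⟩) hx1
    have h5 : series {1} x = 1 := by
      unfold series
      rw [tsum_eq_single 1]
      · simp
      · intro n hn
        rw [if_neg (by simpa using hn)]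
    linarith
  rw [← sum_div, lt_div_iff₀ hpos] at hx
  refine hx.le.trans ?_
  have h6 : ∑ v ∈ G, series {d | d ∈ Ord4 δ ∧ ∑ p ∈ d.primeFactors, bb e p = v} x =
      series {d | d ∈ Ord4 δ ∧ ∑ p ∈ d.primeFactors, bb e p ∈ G} x := by
    unfold series
    rw [← Summable.tsum_finsetSum fun v _ => summ _ hx1]
    congr 1
    funext n
    by_cases h7 : n ∈ Ord4 δ ∧ ∑ p ∈ n.primeFactors, bb e p ∈ G
    · rw [if_pos (show n ∈ {d | d ∈ Ord4 δ ∧ ∑ p ∈ d.primeFactors, bb e p ∈ G} from h7),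
        sum_eq_single (∑ p ∈ n.primeFactors, bb e p)]
      · rw [if_pos ⟨h7.1, rfl⟩]
      · intro v _ hv
        rw [if_neg fun h => hv h.2.symm]
      · intro h
        exact absurd h7.2 h
    · rw [if_neg (show n ∉ {d | d ∈ Ord4 δ ∧ ∑ p ∈ d.primeFactors, bb e p ∈ G} from h7)]
      refine sum_eq_zero fun v hv => ?_
      rw [if_neg]
      rintro ⟨h8, h9⟩
      exact h7 ⟨h8, by rw [h9]; exact hv⟩
  rw [h6]
  refine series_mono ?_ hx1
  rintro d ⟨h8, h9⟩
  refine ⟨h8, ?_⟩
  rw [hδ] at h8 ⊢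
  exact rule_det hrep hdim hsch hQ e h8 (mem_filter.1 h9).2

open Classical in
/-- there are many primes in `Ord4 δ` -/
theorem many_primes (hdir : S_DIR) {δ : GaussianInt} (h1 : (4 : GaussianInt) ∣ δ - ⟨1, 1⟩)
    (h2 : Squarefree δ.norm.natAbs) :
    ¬ Summable (fun p : ℕ => if p.Prime ∧ p ∈ Ord4 δ then (1 / p : ℝ) else 0) := by
  obtain ⟨Q, hQ, hδ, hN, hNi, -⟩ := decomp h1 h2
  obtain ⟨q, a, hq, haq, hcl⟩ := cls hQ hN hNi ∅
  intro hsum
  apply hdir q a hq haq
  refine Summable.of_nonneg_of_le (fun p => by split_ifs <;> positivity) (fun p => ?_) hsum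
  by_cases hp : p.Prime ∧ p ≡ a [MOD q]
  swap
  · rw [if_neg hp]
    split_ifs <;> positivity
  obtain ⟨h8, hx⟩ := hcl p hp.1 hp.2
  obtain ⟨hOP, hclp⟩ := Pool.Agent.Helper35K9.LW.Rep.inert_OP hp.1 h8
  have hnot : -(p : GaussianInt) ∉ Q := by
    intro h
    have h3 := hx _ h
    rw [Pool.Agent.Y697.MQ.leg_eq_zero.2 (dvd_refl _)] at h3
    simp at h3
  have hgA : ∀ x ∈ Q, gA (-(p : GaussianInt)) x = 0 := by
    intro x hxQ
    rw [gA_lg, hx x hxQ]
    simp [lg]
  have hmem : p ∈ Ord4 δ := by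
    refine ⟨hp.1.squarefree, fun r hr hrp => ?_⟩
    rw [(Nat.prime_dvd_prime_iff_eq hr hp.1).1 hrp]
    refine ⟨by omega, ?_⟩
    rw [symbol_eq, ← Pool.Agent.Helper35K9.LW.Rep.leg_neg_left, hδ]
    obtain ⟨h3, h4⟩ := row_sum hQ hOP hnot
    rw [← lg_inj h4, ← h3, gL_lg, hclp, sum_congr rfl hgA, sum_const_zero]
    rfl
  rw [if_pos hp, if_pos ⟨hp.1, hmem⟩]

end proof

open Classical in
/-- **Main theorem.** Let `δ ≡ 1 + i mod 4`, let its norm be squarefree with `m` odd prime factors, and let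
`m` be even or `(y / x) = -1` for some primary prime `x` and `δ = x y`. For every `c` smaller than
`∏_(i < m / 2) (1 - 2 ^ (-(2 i + 1)))`, which is at least `0.4194`, the Dirichlet series of the `d ∈ Ord4 δ` for which the
rule holds is at least `c` times the one of `Ord4 δ` if the real argument is close to `1`. The sum of
`1 / p` over the primes of `Ord4 δ` diverges. -/
theorem result (δ : GaussianInt) (h1 : (4 : GaussianInt) ∣ δ - ⟨1, 1⟩)
    (h2 : Squarefree δ.norm.natAbs)
    (h3 : Even (om δ) ∨ ∃ x y : GaussianInt, Prime x ∧ Primary x ∧ δ = x * y ∧ symbol x y = -1) :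
    (∀ c : ℝ, c < proportion (om δ / 2) → ∀ᶠ x : ℝ in 𝓝[>] 1,
      c * series (Ord4 δ) x ≤ series {d | d ∈ Ord4 δ ∧ Rule d δ} x) ∧
    0.4194 ≤ proportion (om δ / 2) ∧
    ¬ Summable (fun p : ℕ => if p.Prime ∧ p ∈ Ord4 δ then (1 / p : ℝ) else 0) :=
  ⟨fun _ hc => density Pool.Agent.Helper35K9.LW.Rep.rep Pool.Agent.Helper35K9.LW.Rep.dim
    Pool.Agent.Helper35K9.OF.sch Pool.Agent.Helper35K9.OF.alt_leaf Pool.Agent.Helper35K9.OF.den
    Pool.Agent.Helper35K9.OF.dir h1 h2 h3 hc, Pool.Agent.Helper35K9.OF.pim _,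
    many_primes Pool.Agent.Helper35K9.OF.dir h1 h2⟩

end Pool.Agent.Results.MP_775b3b_nt.OrderFourTwists
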