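import Mathlib
import Pool.Agent.W307.RT.Tors
import Pool.Agent.Helper30K9.QT.Fin
import Pool.Agent.Helper30K9.QT.Ldf
import Pool.Agent.Helper30K9.QT.Link
import Pool.Agent.Helper30K9.QT.Mer

/-!
# The multiplicities of all irreducible representations for quaternion fields

Let `F` be a Galois extension of `ℚ` whose Galois group is the quaternion group of order 8. There is
a constant `C` such that for every `H` and for every irreducible complex representation `ρ` of
`Gal(F/ℚ)` (the four characters and the symplectic representation of dimension two) the average of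
`2 ^ m_ρ(E)` over the elliptic curves `E` over `ℚ` with full rational 2-torsion of height at most `H`
is at most `C`. The average of `2 ^ (rank E(F) / 10)` is also at most `C`; in particular the average
rank of `E(F)` is bounded.
-/

namespace Pool.Agent.Results.MP_775b3b_nt.QuaternionFields

open Finset Filter WeierstrassCurve TensorProduct

/-- the curve `y² = x³ + A x + B` over `ℚ` -/
def E (A B : ℤ) : WeierstrassCurve ℚ := ⟨0, 0, 0, (A : ℚ), (B : ℚ)⟩

/-- `Z/2 x Z/2` embeds in the group of the rational points of `y² = x³ + A x + B` -/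
def FullTors (A B : ℤ) : Prop :=
  ∃ f : ZMod 2 × ZMod 2 →+ (E A B).toAffine.Point, Function.Injective f

/-- `4 A³ + 27 B² ≠ 0`, there is no prime `p` with `p⁴ ∣ A` and `p⁶ ∣ B`, the height
`max (4 |A|³) (27 B²)` is at most `H`, and the rational 2-torsion is full. -/
def Good (H : ℕ) (c : ℤ × ℤ) : Prop :=
  4 * c.1 ^ 3 + 27 * c.2 ^ 2 ≠ 0 ∧ 4 * |c.1| ^ 3 ≤ H ∧ 27 * c.2 ^ 2 ≤ H ∧
    (∀ p : ℕ, p.Prime → ¬ ((p : ℤ) ^ 4 ∣ c.1 ∧ (p : ℤ) ^ 6 ∣ c.2)) ∧ FullTors c.1 c.2

open Classical in
/-- The pairs `(A, B)` with `Good H (A, B)`. (The bounds `|A|, |B| ≤ H` follow from the bound of the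
height. Every elliptic curve over `ℚ` is isomorphic to `E A B` for exactly one pair with the first
two properties.) -/
noncomputable def Fam (H : ℕ) : Finset (ℤ × ℤ) :=
  ((Icc (-(H : ℤ)) H) ×ˢ (Icc (-(H : ℤ)) H)).filter (Good H)

/-- the group `W(F)` -/
abbrev Pts (F : Type) [Field F] (W : WeierstrassCurve ℚ) [CharZero F] : Type :=
  (W.baseChange F).toAffine.Point

section

variable (F : Type) [Field F] [NumberField F] (W : WeierstrassCurve ℚ)

open Classical in
/-- the vector space `ℂ ⊗ W(F)` -/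
def VE : Type := ℂ ⊗[ℤ] Pts F W

open Classical in
noncomputable instance : AddCommGroup (VE F W) := inferInstanceAs (AddCommGroup (ℂ ⊗[ℤ] Pts F W))

open Classical in
noncomputable instance : Module ℂ (VE F W) := inferInstanceAs (Module ℂ (ℂ ⊗[ℤ] Pts F W))

open Classical in
/-- the representation of `Gal(F/ℚ)` on `ℂ ⊗ W(F)`: the action of `σ` -/
noncomputable def act (σ : F ≃ₐ[ℚ] F) : VE F W →ₗ[ℂ] VE F W :=
  LinearMap.baseChange ℂ (Affine.Point.map (W' := W.toAffine) (σ : F →ₐ[ℚ] F)).toIntLinearMap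

open Classical in
/-- the rank of `W(F)` -/
noncomputable def rk : ℕ := Module.finrank ℤ (Pts F W)

variable {V : Type} [AddCommGroup V] [Module ℂ V] (ρ : (F ≃ₐ[ℚ] F) →* (V →ₗ[ℂ] V))

/-- homomorphism of representations -/
def IsHom (f : V →ₗ[ℂ] VE F W) : Prop := ∀ σ v, f (ρ σ v) = act F W σ (f v)

lemma isHom_zero : IsHom F W ρ 0 := fun σ v => by simp

lemma isHom_add {f f' : V →ₗ[ℂ] VE F W} (h : IsHom F W ρ f) (h' : IsHom F W ρ f') :
    IsHom F W ρ (f + f') := fun σ v => by simp [h σ v, h' σ v]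

lemma isHom_smul (c : ℂ) {f : V →ₗ[ℂ] VE F W} (h : IsHom F W ρ f) : IsHom F W ρ (c • f) :=
  fun σ v => by simp [h σ v]

/-- the space of the homomorphisms of representations from `ρ` to `ℂ ⊗ W(F)` -/
def HomG : Submodule ℂ (V →ₗ[ℂ] VE F W) where
  carrier := {f | IsHom F W ρ f}
  zero_mem' := isHom_zero F W ρ
  add_mem' := isHom_add F W ρ
  smul_mem' := isHom_smul F W ρ

/-- the multiplicity `m_ρ` -/
noncomputable def mult : ℕ := Module.finrank ℂ (HomG F W ρ)

end

/-- irreducible: not zero, and there are no stable subspaces other than `0` and the whole space -/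
def IsIrr {G V : Type} [Group G] [AddCommGroup V] [Module ℂ V] (ρ : G →* (V →ₗ[ℂ] V)) : Prop :=
  (∃ v : V, v ≠ 0) ∧ ∀ U : Submodule ℂ V, (∀ g, ∀ u ∈ U, ρ g u ∈ U) → U = ⊥ ∨ U = ⊤

lemma mem_Fam (H : ℕ) (c : ℤ × ℤ) :
    c ∈ Fam H ↔ c ∈ (Icc (-(H : ℤ)) H) ×ˢ (Icc (-(H : ℤ)) H) ∧ Good H c := by
  classical
  unfold Fam
  rw [mem_filter]

lemma Fam_eq (H : ℕ) : Fam H = Pool.Agent.W307.RT.Cv 2 H := by
  classical
  ext c
  have h : Pool.Agent.W307.RT.HasT 2 (Pool.Agent.W307.RT.Sh c.1 c.2) ↔ FullTors c.1 c.2 :=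
    Pool.Agent.W307.RT.tors_iff
  rw [mem_Fam]
  unfold Pool.Agent.W307.RT.Cv Good
  rw [mem_filter, h]

/-- The number of these curves of height at most `H` tends to infinity. -/
theorem card_tendsto : Tendsto (fun H : ℕ => (Fam H).card) atTop atTop := by
  simp only [Fam_eq]
  exact Pool.Agent.W307.RT.tendsto_of_low Pool.Agent.W672.FK.lowf

/-- **Theorem.** Let `F` be a Galois extension of `ℚ` whose group is the quaternion group of order
8. There is a constant `C` such that for every `H` the sum of `2 ^ (rank E(F) / 10)` over the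
elliptic curves `E` over `ℚ` with full rational 2-torsion of height at most `H` is at most `C` times
their number, and for every irreducible complex representation `ρ` of `Gal(F/ℚ)` the sum of
`2 ^ m_ρ(E)` over these curves is at most `C` times their number. -/
theorem result (F : Type) [Field F] [NumberField F] [IsGalois ℚ F]
    (e : (F ≃ₐ[ℚ] F) ≃* QuaternionGroup 2) :
    ∃ C : ℝ, ∀ H : ℕ,
      ∑ c ∈ Fam H, (2 : ℝ) ^ ((rk F (E c.1 c.2) : ℝ) / 10) ≤ C * (Fam H).card ∧
      ∀ (V : Type) [AddCommGroup V] [Module ℂ V] (ρ : (F ≃ₐ[ℚ] F) →* (V →ₗ[ℂ] V)), IsIrr ρ →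
        ∑ c ∈ Fam H, (2 : ℝ) ^ mult F (E c.1 c.2) ρ ≤ C * (Fam H).card := by
  simp only [Fam_eq]
  exact Pool.Agent.Helper30K9.QT.finQ Pool.Agent.Helper30K9.QT.ldf
    Pool.Agent.Helper30K9.QT.link Pool.Agent.Helper30K9.QT.mer F e

end Pool.Agent.Results.MP_775b3b_nt.QuaternionFields
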